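import Pool.Agent.W719.AR.Defs
import Pool.Agent.W719.BS.Stubs

/-!
# Arborescent links: from the R-matrix to the iterated integral.  Statements.

`V_N ⊗ V_N` is the sum of the modules of dimension `2 c + 1`, `c = 0, …, N - 1` (`IsDec`, summand
number `d = N - 1 - c`).  The operator of a tangle is a scalar on every summand.
-/

set_option autoImplicit false

namespace Pool.Agent.W719.AR

open Finset Filter Topology Matrix
open Pool.Agent.H550R3.Jones Pool.Agent.W711.HT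
open Pool.Agent.W719.BS (rot kw)
open scoped Real

/-- divided difference at the nodes `u_0, …, u_n`, `u_j = v^(2j+1) + v^(-(2j+1))` -/
noncomputable def dd (v : ℂ) (x : ℕ → ℂ) (n : ℕ) : ℂ :=
  ∑ k ∈ range (n + 1), x k / ∏ j ∈ (range (n + 1)).erase k, (un v k - un v j)

/-- eigenvalue, on the summand of dimension `2 c + 1`, of the rotation of the operator with the
eigenvalues `x` -/
noncomputable def rt (N : ℕ) (v : ℂ) (x : ℕ → ℂ) (c : ℕ) : ℂ :=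
  (-1) ^ (N - 1) * (br v N / br v (2 * (c : ℤ) + 1)) *
    ∑ n ∈ Ico c N, wn N v n * dd v x n / ∏ j ∈ (range (n + 1)).erase c, (un v c - un v j)

/-- the eigenvalues of a rotated operator -/
def S_ROTE : Prop := ∀ u : ℂ, Gen u → ∀ N : ℕ, ∀ φ ψ, IsDec u N φ ψ →
  ∀ (A : Matrix (Fin N × Fin N) (Fin N × Fin N) ℂ) (x : ℕ → ℂ),
    (∀ d : Fin N, A * φ d = x (N - 1 - d) • φ d) →
    ∀ d : Fin N, rot N (u ^ 2) A * φ d = rt N (u ^ 2) x (N - 1 - d) • φ d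

/-- eigenvalue of `a` crossings -/
noncomputable def ex (N : ℕ) (a : ℤ) (v : ℂ) (c : ℕ) : ℂ :=
  ((-1) ^ (N - 1 - c) * v ^ ((c : ℤ) * (c + 1) - ((N : ℤ) ^ 2 - 1))) ^ a

/-- the eigenvalues of the operator of a tree -/
noncomputable def ev (N : ℕ) (v : ℂ) : Tr → ℕ → ℂ
  | .vx a => ex N a v
  | .br t s => fun c => ev N v t c * rt N v (ev N v s) c

/-- the invariant at generic `v` -/
def S_EVT : Prop := ∀ u : ℂ, Gen u → ∀ N : ℕ, 0 < N → ∀ t : Tr,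
  br (u ^ 2) N * jt t N (u ^ 2) = ∑ c ∈ range N, ev N (u ^ 2) t c * br (u ^ 2) (2 * (c : ℤ) + 1)

/-! ### The limit at the root of unity -/

/-- the nodes in the variable `ψ`; `u_c` tends to `-2 cos ψ_c` -/
noncomputable def ps (N c : ℕ) : ℝ := π * (2 * c + 1 - N) / N

/-- The functions `x v c` of the node converge to the even entire function `F`, and so do the
derivatives with respect to `u = -2 cos ψ` (the nodes `c` and `N - 1 - c` coincide in the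
limit). -/
structure Lm (N : ℕ) (x : ℂ → ℕ → ℂ) (F : ℂ → ℂ) : Prop where
  an : Differentiable ℂ F
  ev : ∀ ψ, F (-ψ) = F ψ
  l0 : ∀ c < N, Tendsto (fun v => x v c) (𝓝[≠] vN N) (𝓝 (F (ps N c)))
  l1 : ∀ c < N, 2 * c + 1 ≠ N →
    Tendsto (fun v => (x v c - x v (N - 1 - c)) / (un v c - un v (N - 1 - c))) (𝓝[≠] vN N)
      (𝓝 (deriv F (ps N c) / (2 * Complex.sin (ps N c))))

/-- limit of the divided differences -/
def S_LMD : Prop := ∀ (N : ℕ) (x : ℂ → ℕ → ℂ) (F : ℂ → ℂ), 2 ≤ N → Lm N x F → ∀ n < N,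
  Tendsto (fun v => dd v (x v) n) (𝓝[≠] vN N) (𝓝 (Complex.I / (2 * π) * (-1) ^ (N - 1 - n) *
    upp (1 / N) fun ψ => F ψ * Rp N (N - 1 - n) ψ * kr N ψ))

/-- limit of the trace -/
def S_LMT : Prop := ∀ (N : ℕ) (x : ℂ → ℕ → ℂ) (F : ℂ → ℂ), 2 ≤ N → Lm N x F →
  Tendsto (fun v => (∑ c ∈ range N, x v c * br v (2 * (c : ℤ) + 1)) / br v N) (𝓝[≠] vN N)
    (𝓝 (Complex.I * N ^ 2 / (2 * π) * upp (1 / N) fun ψ => F ψ * kr N ψ))

/-- `{N} / ({2c+1} ∏_{j ≠ c} (u_c - u_j)) = (-1)^(N-1-c) {N} / ({N-1-c}! {N+c}!)` -/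
noncomputable def gam (N : ℕ) (v : ℂ) (c : ℕ) : ℂ :=
  br v N / (br v (2 * (c : ℤ) + 1) * ∏ j ∈ (range N).erase c, (un v c - un v j))

def S_GAM : Prop := ∀ N : ℕ, 2 ≤ N → ∀ c < N,
  Tendsto (fun v => gam N v c) (𝓝[≠] vN N) (𝓝 (1 / (N : ℂ) ^ 2)) ∧
  (2 * c + 1 ≠ N → Tendsto (fun v => (gam N v c - gam N v (N - 1 - c)) /
    (un v c - un v (N - 1 - c))) (𝓝[≠] vN N) (𝓝 0))

/-- the rotation in the limit -/
def S_LMR : Prop := ∀ (N : ℕ) (x : ℂ → ℕ → ℂ) (F : ℂ → ℂ), 2 ≤ N → Lm N x F →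
  Lm N (fun v c => rt N v (x v) c) (fun ψ' => (-1) ^ (N - 1) * (Complex.I * N ^ 2 / (2 * π)) *
    upp (1 / N) fun ψ => F ψ * ker N ψ ψ' * kr N ψ)

/-- limit of the eigenvalue of a crossing, up to `e^(i N ψ^2 / (4 π))` -/
noncomputable def kp (N : ℕ) : ℂ :=
  -Complex.I * Complex.exp (-(Complex.I * π * N / 4) + 3 * π * Complex.I / (4 * N))

/-- the crossings in the limit -/
def S_LMV : Prop := ∀ (N : ℕ) (a : ℤ), 2 ≤ N → Lm N (ex N a) (fun ψ => kp N ^ a * Ea a N ψ)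

/-- products -/
def S_LMM : Prop := ∀ (N : ℕ) (x y : ℂ → ℕ → ℂ) (F G : ℂ → ℂ), 2 ≤ N → Lm N x F → Lm N y G →
  Lm N (fun v c => x v c * y v c) (fun ψ => F ψ * G ψ)

/-- continuity at the root of unity -/
def S_CNT : Prop := ∀ (t : Tr) (N : ℕ), ContinuousAt (jt t N) (vN N)

/-- from the R-matrix to the iterated integral -/
def S_RTT : Prop := ∀ (t : Tr) (N : ℕ), 2 ≤ N → ContinuousAt (jt t N) (vN N) ∧
  ‖jt t N (vN N)‖ = ((N : ℝ) ^ 2 / (2 * π)) ^ t.nv * ‖JT t N‖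

end Pool.Agent.W719.AR
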