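import Pool.Agent.W719.AR.Geo
import Pool.Agent.W719.AR.Rt

/-!
# Arborescent links: assembly
-/

set_option autoImplicit false

namespace Pool.Agent.W719.AR

open Finset Filter Topology
open Pool.Agent.W711.HT
open scoped Real

theorem shape_nc (p : PT) : p.shape.nc = p.nc := by
  induction p with
  | vx a z => rfl
  | br t c ht hc => simp [PT.shape, Tr.nc, PT.nc, ht]

theorem fint (h1 : S_MAIND) (h2 : S_CCT) (h3 : S_ANG) (h4 : S_GMT) : S_FINT := by
  intro D hD
  obtain ⟨ρ, τ, κ, c, s, dl, hKD, h⟩ := h1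
  obtain ⟨C, M, hC, hM, h⟩ := h D hD
  obtain ⟨M', hM'⟩ := h2 ρ τ κ c s dl hKD C hC D
  refine ⟨max M M', fun t ht htn => ?_⟩
  have mono : ∀ (t : Tr) (M₁ M₂ : ℝ), M₁ ≤ M₂ → t.Big M₂ D → t.Big M₁ D := by
    intro t M₁ M₂ h12
    induction t with
    | vx a => exact fun h => le_trans h12 h
    | br t c ht hc => exact fun h => ⟨ht h.1, hc h.2.1, h.2.2⟩
  obtain ⟨p, hp, hcr, hcp, heq, hlim⟩ := h t (mono t _ _ (le_max_left _ _) ht) htn
  have hnc : 1 ≤ p.nc := by rw [← shape_nc, hp]; exact htn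
  obtain ⟨a1, a2, a3, a4⟩ := hM' p (by rw [hp]; exact mono t _ _ (le_max_right _ _) ht) hnc hcr
    hcp heq
  obtain ⟨b1, b2, b3⟩ := h3 dl p a1 a2 hnc a3
  refine ⟨p.hs dl, ⟨⟨p.ang dl, by rw [b1, hp], b2, b3⟩, ?_⟩, ?_⟩
  · rintro W ⟨y, hy1, hy2, rfl⟩
    rw [← b3]
    exact h4 dl p a1 a2 hnc a3 y (by rw [hy1, hp]) hy2
  · rw [← a4]
    exact hlim.const_mul _

/-- the volume conjecture for highly twisted arborescent links -/
theorem final (h1 : S_RTT) (h2 : S_FINT) (h3 : S_CNT) : ∀ D : ℕ, 1 ≤ D → ∃ M : ℝ, ∀ t : Tr,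
    t.Big M D → 1 ≤ t.nc → (∀ N : ℕ, ContinuousAt (jt t N) (vN N)) ∧ ∃ V : ℝ,
    IsGreatest {W : ℝ | ∃ y : AT, y.shape = t ∧ y.IsAng ∧ y.vol = W} V ∧
    Tendsto (fun N : ℕ => 2 * π * (Real.log ‖jt t N (vN N)‖ / N)) atTop (𝓝 V) := by
  intro D hD
  obtain ⟨M, hM⟩ := h2 D hD
  refine ⟨M, fun t ht htn => ?_⟩
  obtain ⟨V, h4, h5⟩ := hM t ht htn
  refine ⟨fun N => h3 t N, V, h4, ?_⟩
  have hlog : Tendsto (fun N : ℕ => Real.log N / N) atTop (𝓝 0) := by
    have := (Real.isLittleO_log_id_atTop).tendsto_div_nhds_zero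
    exact this.comp tendsto_natCast_atTop_atTop
  have hpi : (0 : ℝ) < 2 * π := Real.two_pi_pos
  set K : ℝ := 2 * π * t.nv with hK
  have hb : Tendsto (fun N : ℕ => K * ((2 * Real.log N + |Real.log (2 * π)|) / N)) atTop (𝓝 0) := by
    have e1 : (fun N : ℕ => K * ((2 * Real.log N + |Real.log (2 * π)|) / N)) =
        fun N : ℕ => K * (2 * (Real.log N / N) + |Real.log (2 * π)| * ((N : ℝ))⁻¹) := by
      funext N
      ring
    rw [e1]
    have h0 : Tendsto (fun N : ℕ => ((N : ℝ))⁻¹) atTop (𝓝 0) := tendsto_inv_atTop_nhds_zero_nat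
    simpa using ((hlog.const_mul 2).add (h0.const_mul _)).const_mul K
  have hd : Tendsto (fun N : ℕ => 2 * π * (Real.log ‖jt t N (vN N)‖ / N) -
      2 * π * (Real.log ‖JT t N‖ / N)) atTop (𝓝 0) := by
    refine squeeze_zero_norm' ?_ hb
    filter_upwards [eventually_ge_atTop 2] with N hN
    have hN1 : (2 : ℝ) ≤ N := by exact_mod_cast hN
    have hN0 : (0 : ℝ) < N := by linarith
    rw [(h1 t N hN).2]
    have hlN : 0 ≤ Real.log N := Real.log_nonneg (by linarith)
    rcases eq_or_ne (‖JT t N‖) 0 with hz | hz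
    · rw [hz, mul_zero]
      simp only [Real.log_zero, zero_div, mul_zero, sub_self, norm_zero]
      positivity
    · have hfac : ((N : ℝ) ^ 2 / (2 * π)) ≠ 0 := by positivity
      rw [Real.log_mul (pow_ne_zero _ hfac) hz, Real.log_pow, Real.log_div (by positivity) hpi.ne',
        Real.log_pow]
      have e2 : 2 * π * (((t.nv : ℝ) * ((2 : ℕ) * Real.log N - Real.log (2 * π)) +
          Real.log ‖JT t N‖) / N) - 2 * π * (Real.log ‖JT t N‖ / N) =
          K * ((2 * Real.log N - Real.log (2 * π)) / N) := by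
        rw [hK]
        push_cast
        ring
      rw [e2, Real.norm_eq_abs, abs_mul, abs_div, abs_of_pos hN0]
      have hK0 : 0 ≤ K := by positivity
      rw [abs_of_nonneg hK0]
      apply mul_le_mul_of_nonneg_left _ hK0
      apply div_le_div_of_nonneg_right _ hN0.le
      calc |2 * Real.log N - Real.log (2 * π)| ≤ |2 * Real.log N| + |Real.log (2 * π)| :=
            abs_sub _ _
        _ = _ := by rw [abs_of_nonneg (by positivity : (0 : ℝ) ≤ 2 * Real.log N)]
  have := h5.add hd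
  simpa using this

end Pool.Agent.W719.AR
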