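import Pool.Agent.W719.AR.Defs
import Pool.Agent.W711.HT.Stm2

/-!
# Arborescent links: the saddle point method.  Statements.

This is the recursion of `Pool.Agent.W711.HT.Stm` with products of several functions.
-/

set_option autoImplicit false

namespace Pool.Agent.W719.AR

open Finset Filter Topology Metric
open Pool.Agent.W711.HT
open scoped Real

/-- the functions of the recursion: `X` is a product of `t ≤ D` rotated functions -/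
structure GoodD (ρ τ κ ε₀ : ℝ) (D : ℕ) (s : ℂ → ℂ → ℂ) (t : ℕ) (X : ℕ → ℂ → ℂ) (F : ℂ → ℂ) :
    Prop where
  an : ∀ N, Differentiable ℂ (X N)
  ev : ∀ N ψ, X N (-ψ) = X N ψ
  pos : 0 ≤ (F 0).re
  Fan : DifferentiableOn ℂ F (Rc (3 * ρ) (3 * τ))
  Fev : ∀ ψ ∈ Rc (3 * ρ) (3 * τ), F (-ψ) = F ψ
  Fcl : ∀ ψ ∈ Rc (3 * ρ) (3 * τ), ‖F ψ - F 0 - t * (s 0 ψ - s 0 0)‖ ≤ t * (ε₀ / D)
  mw : MW X F (Rc (2 * ρ) (2 * τ))
  gl : ∀ᶠ N : ℕ in atTop, ∀ x y : ℝ, |x| ≤ π → |y| ≤ 1 / N →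
    ‖X N (x + y * Complex.I)‖ ≤ Real.exp (N * ((F 0).re + t * (κ / (2 * D))))
  gl1 : 1 ≤ t → ∀ᶠ N : ℕ in atTop, ∀ x y : ℝ, ρ ≤ |x| → |x| ≤ π → |y| ≤ 1 / N →
    ‖X N (x + y * Complex.I)‖ ≤ Real.exp (N * ((F 0).re - κ / 2))

/-- existence and properties of the critical points (as `S_CP` of HT, with `t ≤ D`) -/
def S_CPD : Prop := ∀ (ρ τ κ c : ℝ) (s dl : ℂ → ℂ → ℂ), KD ρ τ κ c s dl → ∀ D : ℕ, 1 ≤ D →
  ∃ ε₀ C M : ℝ, 0 < ε₀ ∧ ε₀ ≤ κ / 16 ∧ 0 < C ∧ 0 < M ∧ C / M ≤ κ / 16 ∧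
    ∀ (t : ℕ) (F : ℂ → ℂ), t ≤ D → DifferentiableOn ℂ F (Rc (3 * ρ) (3 * τ)) →
      (∀ ψ ∈ Rc (3 * ρ) (3 * τ), F (-ψ) = F ψ) →
      (∀ ψ ∈ Rc (3 * ρ) (3 * τ), ‖F ψ - F 0 - t * (s 0 ψ - s 0 0)‖ ≤ ε₀) →
      ∀ a : ℤ, M ≤ |(a : ℝ)| →
        (∃ (F' : ℂ → ℂ) (zs : ℂ → ℂ), DifferentiableOn ℂ F' (Rc (3 * ρ) (3 * τ)) ∧
          (∀ ψ ∈ Rc (3 * ρ) (3 * τ), F' (-ψ) = F' ψ) ∧
          (∀ ψ ∈ Rc (3 * ρ) (3 * τ), ‖F' ψ - F' 0 - (s 0 ψ - s 0 0)‖ ≤ ε₀ / D) ∧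
          (∀ ψ ∈ Rc (3 * ρ) (3 * τ), ‖F' ψ - F 0 - s 0 ψ‖ ≤ C / |(a : ℝ)|) ∧
          ∀ ψ' ∈ Rc (3 * ρ) (3 * τ), CPt C ρ τ a (zs ψ') ∧
            SAD a (fun w => F w + s w ψ') ρ (zs ψ') ∧
            Complex.I * a * zs ψ' / (2 * π) + Complex.I + deriv F (zs ψ') +
              deriv (fun w => s w ψ') (zs ψ') = 0 ∧
            F' ψ' = qq a F (zs ψ') + s (zs ψ') ψ' ∧
            HasDerivAt F' (deriv (fun w => s (zs ψ') w) ψ') ψ') ∧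
        (1 ≤ t → ∃ z : ℂ, CPt C ρ τ a z ∧ SAD a F ρ z ∧
          Complex.I * a * z / (2 * π) + Complex.I + deriv F z = 0 ∧
          ‖qq a F z - F 0‖ ≤ C / |(a : ℝ)|)

/-- the induction step (as `S_STEP` of HT, with `t ≤ D`) -/
def S_STEPD : Prop := ∀ (ρ τ κ c : ℝ) (s dl : ℂ → ℂ → ℂ), KD ρ τ κ c s dl → ∀ D : ℕ, 1 ≤ D →
  ∃ ε₀ C M : ℝ, 0 < ε₀ ∧ 0 < C ∧ 0 < M ∧
    (∀ (t : ℕ) (X : ℕ → ℂ → ℂ) (F : ℂ → ℂ), t ≤ D → GoodD ρ τ κ ε₀ D s t X F →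
      ∀ a : ℤ, M ≤ |(a : ℝ)| → ∃ (F' : ℂ → ℂ) (zs : ℂ → ℂ),
        GoodD ρ τ κ ε₀ D s 1 (stp a X) F' ∧ ‖F' 0 - F 0 - s 0 0‖ ≤ C / |(a : ℝ)| ∧
        ∀ ψ' ∈ Rc (3 * ρ) (3 * τ), CPt C ρ τ a (zs ψ') ∧
          Complex.I * a * zs ψ' / (2 * π) + Complex.I + deriv F (zs ψ') +
            deriv (fun w => s w ψ') (zs ψ') = 0 ∧
          F' ψ' = qq a F (zs ψ') + s (zs ψ') ψ' ∧
          HasDerivAt F' (deriv (fun w => s (zs ψ') w) ψ') ψ') ∧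
    (∀ (t : ℕ) (X : ℕ → ℂ → ℂ) (F : ℂ → ℂ), 1 ≤ t → t ≤ D → GoodD ρ τ κ ε₀ D s t X F →
      ∀ a : ℤ, M ≤ |(a : ℝ)| → ∃ z : ℂ, CPt C ρ τ a z ∧
        Complex.I * a * z / (2 * π) + Complex.I + deriv F z = 0 ∧
        ‖qq a F z - F 0‖ ≤ C / |(a : ℝ)| ∧
        Tendsto (fun N : ℕ => Real.log ‖upp (1 / N) fun ψ => Ea a N ψ * X N ψ * kr N ψ‖ / N)
          atTop (𝓝 (qq a F z).re))

/-- the constant function one, and products -/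
def S_PRD : Prop := ∀ (ρ τ κ c : ℝ) (s dl : ℂ → ℂ → ℂ), KD ρ τ κ c s dl →
  ∀ (ε₀ : ℝ) (D : ℕ), 0 < ε₀ → 1 ≤ D →
    GoodD ρ τ κ ε₀ D s 0 (fun _ _ => 1) (fun _ => 0) ∧
    ∀ (t : ℕ) (X Y : ℕ → ℂ → ℂ) (F G : ℂ → ℂ), GoodD ρ τ κ ε₀ D s t X F →
      GoodD ρ τ κ ε₀ D s 1 Y G →
      GoodD ρ τ κ ε₀ D s (t + 1) (fun N ψ => X N ψ * Y N ψ) (fun ψ => F ψ + G ψ)

/-! ### Critical configurations -/

/-- trees whose vertices carry a complex number (the critical point) -/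
inductive PT
  | vx (a : ℤ) (z : ℂ)
  | br (t c : PT)

namespace PT

def shape : PT → Tr
  | vx a _ => .vx a
  | br t c => .br t.shape c.shape

/-- weight of the root -/
def wt : PT → ℤ
  | vx a _ => a
  | br t _ => t.wt

/-- the number at the root -/
def rz : PT → ℂ
  | vx _ z => z
  | br t _ => t.rz

/-- derivative, in the variable of the root, of the value -/
noncomputable def gs (s : ℂ → ℂ → ℂ) : PT → ℂ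
  | vx _ _ => 0
  | br t c => t.gs s + deriv (fun w => s c.rz w) t.rz

/-- the value without the term of the root -/
noncomputable def vl (s : ℂ → ℂ → ℂ) : PT → ℂ
  | vx _ _ => 0
  | br t c => t.vl s + (Complex.I * c.wt * c.rz ^ 2 / (4 * π) + Complex.I * c.rz + c.vl s +
      s c.rz t.rz)

/-- the critical point equations at the vertices other than the root -/
def Crt (s : ℂ → ℂ → ℂ) (C ρ τ : ℝ) : PT → Prop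
  | vx _ _ => True
  | br t c => t.Crt s C ρ τ ∧ c.Crt s C ρ τ ∧ CPt C ρ τ c.wt c.rz ∧
      Complex.I * c.wt * c.rz / (2 * π) + Complex.I + c.gs s +
        deriv (fun w => s w t.rz) c.rz = 0

end PT

/-- the growth rate is the value at a critical configuration -/
def S_MAIND : Prop := ∃ (ρ τ κ c : ℝ) (s dl : ℂ → ℂ → ℂ), KD ρ τ κ c s dl ∧
  ∀ D : ℕ, 1 ≤ D → ∃ C M : ℝ, 0 < C ∧ 0 < M ∧ ∀ t : Tr, t.Big M D → 1 ≤ t.nc →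
    ∃ p : PT, p.shape = t ∧ p.Crt s C ρ τ ∧ CPt C ρ τ p.wt p.rz ∧
      Complex.I * p.wt * p.rz / (2 * π) + Complex.I + p.gs s = 0 ∧
      Tendsto (fun N : ℕ => Real.log ‖JT t N‖ / N) atTop
        (𝓝 (Complex.I * p.wt * p.rz ^ 2 / (4 * π) + Complex.I * p.rz + p.vl s).re)

end Pool.Agent.W719.AR
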