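import Pool.Agent.W711.HT.Geo
import Pool.Agent.W719.BS.Defs

/-!
# Volume conjecture for highly twisted arborescent links: definitions

A weighted rooted planar tree describes a tangle with two strands at the top and two at the bottom:
the root of weight `a` gives `a` crossings, every child gives the rotation (by a quarter turn) of
the tangle of the child, all this stacked.  The closure of the second strand gives the long
arborescent link.
-/

set_option autoImplicit false

namespace Pool.Agent.W719.AR

open Finset Filter Topology Matrix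
open Pool.Agent.H550R3.Jones Pool.Agent.W711.HT
open Pool.Agent.W719.BS (rot kw)
open scoped Real

/-! ### Trees -/

/-- Weighted rooted planar trees: `vx a` is a single vertex of weight `a`, `br t c` is obtained from
`t` by joining the root of `c` to the root of `t` by an edge. -/
inductive Tr
  | vx (a : ℤ)
  | br (t c : Tr)

namespace Tr

/-- weight of the root -/
def wt : Tr → ℤ
  | vx a => a
  | br t _ => t.wt

/-- number of children of the root -/
def nc : Tr → ℕ
  | vx _ => 0
  | br t _ => t.nc + 1

/-- number of vertices -/
def nv : Tr → ℕ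
  | vx _ => 1
  | br t c => t.nv + c.nv

/-- all weights have absolute value at least `M`, all vertices have at most `D` children -/
def Big (M : ℝ) (D : ℕ) : Tr → Prop
  | vx a => M ≤ |(a : ℝ)|
  | br t c => t.Big M D ∧ c.Big M D ∧ t.nc + 1 ≤ D

end Tr

/-! ### The invariant -/

/-- the operator of the tangle on `V_N ⊗ V_N` -/
noncomputable def op (N : ℕ) (v : ℂ) : Tr → Matrix (Fin N × Fin N) (Fin N × Fin N) ℂ
  | .vx a => if 0 ≤ a then crossP N v ^ a.toNat else crossN N v ^ (-a).toNat
  | .br t c => op N v t * rot N v (op N v c)

/-- the normalised `N`-coloured Jones polynomial of the arborescent link -/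
noncomputable def jt (t : Tr) (N : ℕ) (v : ℂ) : ℂ :=
  if h : 0 < N then ptr (kw N v) (op N v t) ⟨0, h⟩ ⟨0, h⟩ else 0

/-! ### The iterated integral -/

/-- product over the children of the root -/
noncomputable def XX : Tr → ℕ → ℂ → ℂ
  | .vx _ => fun _ _ => 1
  | .br t c => fun N ψ => XX t N ψ * stp c.wt (XX c) N ψ

/-- the iterated integral of a tree -/
noncomputable def JT (t : Tr) (N : ℕ) : ℂ :=
  upp (1 / N) fun ψ => Ea t.wt N ψ * XX t N ψ * kr N ψ

/-! ### Angle structures -/

/-- The dihedral angles of two ideal tetrahedra: `a, b, c` those of the first one, `a', b', c'`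
those of the second one. -/
structure Fl where
  a : ℝ
  b : ℝ
  c : ℝ
  a' : ℝ
  b' : ℝ
  c' : ℝ

/-- the angles are positive and are those of ideal tetrahedra -/
def Fl.Pos (f : Fl) : Prop :=
  0 < f.a ∧ 0 < f.b ∧ 0 < f.c ∧ f.a + f.b + f.c = π ∧
    0 < f.a' ∧ 0 < f.b' ∧ 0 < f.c' ∧ f.a' + f.b' + f.c' = π

/-- volume of the two tetrahedra -/
noncomputable def Fl.vol (f : Fl) : ℝ :=
  GapVol.lob f.a + GapVol.lob f.b + GapVol.lob f.c +
    (GapVol.lob f.a' + GapVol.lob f.b' + GapVol.lob f.c')

/-- trees whose edges carry two `Fl`: the first one at the root of `t`, the second one at the root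
of `c` -/
inductive AT
  | vx (a : ℤ)
  | br (t c : AT) (f g : Fl)

namespace AT

/-- the underlying tree -/
def shape : AT → Tr
  | vx a => .vx a
  | br t c _ _ => .br t.shape c.shape

/-- weight of the root -/
def wt : AT → ℤ
  | vx a => a
  | br t _ _ _ => t.wt

/-- the edges at the root going to the children: the `Fl` at the root and the one at the child -/
def fl : AT → List (Fl × Fl)
  | vx _ => []
  | br t _ f g => t.fl ++ [(f, g)]

end AT

/-- the sum of the angles around the arc between two neighbouring edges of a vertex is `2 π` -/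
def Gap (x y : Fl × Fl) : Prop :=
  2 * x.1.c + (x.2.a + x.2.b') + (2 * y.1.a' + (y.2.a + y.2.b')) = 2 * π

/-- rotation angle of a half twist -/
noncomputable def Fl.tw (f : Fl) : ℝ := f.a + f.a' + f.b - π

/-- rotation angle across the edge -/
noncomputable def Fl.cr (f : Fl) : ℝ := f.a + f.a' + f.c' - π

/-- the conditions at a vertex of weight `w` with the edges `l` (in cyclic order) -/
def VOK (w : ℤ) (l : List (Fl × Fl)) : Prop :=
  (l ++ l.take 1).IsChain Gap ∧ (∀ x ∈ l, ∀ y ∈ l, x.1.tw = y.1.tw) ∧
    ∀ x ∈ l, (l.map fun y => y.1.cr).sum = 2 * π + w * x.1.tw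

/-- the conditions at the edges and at the vertices other than the root -/
def AT.OK : AT → Prop
  | .vx _ => True
  | .br t c f g => t.OK ∧ c.OK ∧ f.Pos ∧ g.Pos ∧ f.b + f.c' + (g.b + g.c') = 2 * π ∧
      VOK c.wt ((g, f) :: c.fl)

/-- angle structures -/
def AT.IsAng (x : AT) : Prop := x.OK ∧ VOK x.wt x.fl

/-- the volume of an angle structure: every edge gives two octahedra, that is eight tetrahedra -/
noncomputable def AT.vol : AT → ℝ
  | .vx _ => 0
  | .br t c f g => t.vol + c.vol + 2 * (f.vol + g.vol)

end Pool.Agent.W719.AR
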