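import Pool.Agent.W719.AR.FinalA
import Pool.Agent.W637.AR.Rote
import Pool.Agent.W12.AR.Gam
import Pool.Agent.W864.AR.SHP
import Pool.Agent.W885.AR.Lmr

/-! The volume conjecture for highly twisted arborescent links: the final theorem. -/

set_option autoImplicit false

namespace Pool.Agent.W719.AR

open Pool.Agent Finset Filter Topology
open Pool.Agent.W711.HT
open scoped Real

theorem main : ∀ D : ℕ, 1 ≤ D → ∃ M : ℝ, ∀ t : Tr,
    t.Big M D → 1 ≤ t.nc → (∀ N : ℕ, ContinuousAt (jt t N) (vN N)) ∧ ∃ V : ℝ,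
    IsGreatest {W : ℝ | ∃ y : AT, y.shape = t ∧ y.IsAng ∧ y.vol = W} V ∧
    Tendsto (fun N : ℕ => 2 * π * (Real.log ‖jt t N (vN N)‖ / N)) atTop (𝓝 V) :=
  main_of (W864.AR.shp W612.HT.hloc) W637.AR.rote W12.AR.gam_lim W885.AR.lmr

end Pool.Agent.W719.AR
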