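import Pool.Agent.W719.AR.Fin
import Pool.Agent.W334.AR.Evt
import Pool.Agent.W490.AR.Lmd
import Pool.Agent.W571.AR.Lmt
import Pool.Agent.W571.AR.Cct
import Pool.Agent.W199.AR.Lmv
import Pool.Agent.W946.AR.Lmm
import Pool.Agent.W397.AR.Cnt
import Pool.Agent.W803.AR.Rtt
import Pool.Agent.W748.AR.CPD
import Pool.Agent.W179.AR.StepD
import Pool.Agent.W946.AR.Prd
import Pool.Agent.W247.AR.MainD
import Pool.Agent.W597.AR.Vlf
import Pool.Agent.W930.AR.Lsn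
import Pool.Agent.W398.AR.Ang
import Pool.Agent.W737.AR.Gmt
import Pool.Agent.W711.HT.Final2
import Pool.Agent.W583.HTPoth

/-! Assembly: the volume conjecture for highly twisted arborescent links. -/

set_option autoImplicit false

namespace Pool.Agent.W719.AR

open Pool.Agent Finset Filter Topology
open Pool.Agent.W711.HT
open scoped Real

theorem f_KER : S_KER := W469.HT.t_KER f_SD
  (W469.HT.Mwk.t_MWK f_INT f_RRD W588.HT.lapsum0 f_FARD W583.HT.seq) f_BND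

theorem f_STEPD : S_STEPD :=
  W179.AR.stepd W748.AR.task f_LAPINT W583.HT.seq W398.HT.t_STPE upb

theorem f_MAIND : S_MAIND := W247.AR.maind f_KER f_STEPD prd

theorem f_ANG (hshp : S_SHP) : S_ANG := W398.AR.ang_ok hshp
  (W597.AR.vlf g_HV W505.VC.dsym W505.VC.five W612.HT.hloc)

theorem f_GMT (hshp : S_SHP) : S_GMT :=
  W737.AR.gmt W120.VC.tet hshp (W930.AR.lsn hshp W612.HT.hloc)

theorem f_FINT (hshp : S_SHP) : S_FINT :=
  fint f_MAIND (W571.AR.cct W583.HTP.poth) (f_ANG hshp) (f_GMT hshp)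

theorem f_RTT (hrote : S_ROTE) (hgam : S_GAM) (hlmr : S_LMD → S_GAM → S_LMR) : S_RTT :=
  W803.AR.rtt (W334.AR.evt hrote) (W571.AR.lmt W490.AR.lmd hgam) (hlmr W490.AR.lmd hgam)
    W199.AR.lmv lmm W397.AR.cnt

theorem main_of (hshp : S_SHP) (hrote : S_ROTE) (hgam : S_GAM) (hlmr : S_LMD → S_GAM → S_LMR) :
    ∀ D : ℕ, 1 ≤ D → ∃ M : ℝ, ∀ t : Tr,
    t.Big M D → 1 ≤ t.nc → (∀ N : ℕ, ContinuousAt (jt t N) (vN N)) ∧ ∃ V : ℝ,
    IsGreatest {W : ℝ | ∃ y : AT, y.shape = t ∧ y.IsAng ∧ y.vol = W} V ∧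
    Tendsto (fun N : ℕ => 2 * π * (Real.log ‖jt t N (vN N)‖ / N)) atTop (𝓝 V) :=
  final (f_RTT hrote hgam hlmr) (f_FINT hshp) W397.AR.cnt

end Pool.Agent.W719.AR
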