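import Pool.Agent.W719.AR.Ana

/-!
# Arborescent links: the growth rate is the maximal volume.  Statements.

At a vertex with the critical point `ψ` every edge gives a quadrilateral `1, Y, Y W, W` in the link
of the ideal vertex on the crossing circle, `Y = e^(-iψ)`, `W = e^(Lg u ψ)`; the two ideal
tetrahedra over the triangles `1, Y, YW` and `1, YW, W` have the shapes `(1 - YW) / (1 - Y)` and
`(1 - W) / (1 - YW)`.
-/

set_option autoImplicit false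

namespace Pool.Agent.W719.AR

open Finset Filter Topology Metric
open Pool.Agent.W711.HT
open Pool.Agent.W709.VC (Dv S_TET S_DSYM S_FIVE)
open scoped Real

/-- the dihedral angles of the ideal tetrahedra with the shapes `c` and `c'` -/
noncomputable def flS (c c' : ℂ) : Fl :=
  ⟨c.arg, (1 / (1 - c)).arg, (1 - 1 / c).arg, c'.arg, (1 / (1 - c')).arg, (1 - 1 / c').arg⟩

noncomputable def YY (ψ : ℂ) : ℂ := Complex.exp (-(Complex.I * ψ))

noncomputable def WW (ψ u : ℂ) : ℂ := Complex.exp (Lg u ψ)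

/-- the angles at a vertex with the critical point `ψ` at an edge with the parameter `u` -/
noncomputable def fla (ψ u : ℂ) : Fl :=
  flS ((1 - YY ψ * WW ψ u) / (1 - YY ψ)) ((1 - WW ψ u) / (1 - YY ψ * WW ψ u))

/-- the angles at a hinge -/
def S_SHP : Prop := ∀ ψ ψ' u : ℂ, HP ψ ψ' u →
  (fla ψ u).Pos ∧
  (fla ψ u).b + (fla ψ u).c' + ((fla ψ' u).b + (fla ψ' u).c') = 2 * π ∧
  2 * (fla ψ u).c + ((fla ψ' u).a + (fla ψ' u).b') = π - ψ.re ∧
  2 * (fla ψ u).a' + ((fla ψ' u).a + (fla ψ' u).b') = π + ψ.re ∧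
  (fla ψ u).tw = ψ.re ∧ (fla ψ u).cr = (Lg u ψ).im

/-- the volume at a hinge -/
def S_VLF : Prop := ∀ ψ ψ' u : ℂ, HP ψ ψ' u → 2 * ((fla ψ u).vol + (fla ψ' u).vol) = hv ψ ψ' u

/-- the equations for the moduli at a hinge -/
def S_LSN : Prop := ∀ ψ ψ' u : ℂ, HP ψ ψ' u →
  Real.log (2 * Real.sin (fla ψ u).a) - Real.log (2 * Real.sin (fla ψ u).c) =
    ψ.im + Real.log ‖1 - WW ψ u‖ - Real.log ‖1 - YY ψ‖ ∧
  Real.log (2 * Real.sin (fla ψ u).b) - Real.log (2 * Real.sin (fla ψ u).c) =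
    Real.log ‖1 - YY ψ * WW ψ u‖ - Real.log ‖1 - YY ψ‖ ∧
  Real.log (2 * Real.sin (fla ψ u).a') - Real.log (2 * Real.sin (fla ψ u).c') =
    (Lg u ψ).re + Real.log ‖1 - YY ψ‖ - Real.log ‖1 - YY ψ * WW ψ u‖ ∧
  Real.log (2 * Real.sin (fla ψ u).b') - Real.log (2 * Real.sin (fla ψ u).c') =
    Real.log ‖1 - WW ψ u‖ - Real.log ‖1 - YY ψ * WW ψ u‖ ∧
  Real.log ‖1 - WW ψ u‖ - Real.log ‖1 - YY ψ * WW ψ u‖ + Real.log ‖1 - YY ψ' * WW ψ' u‖ -
    Real.log ‖1 - YY ψ'‖ = ((Lg u ψ').re - ψ.im) / 2 ∧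
  (Lg u ψ).re / 2 - ψ.im / 2 - Real.log ‖1 - WW ψ u‖ + Real.log ‖1 - YY ψ‖ =
    Real.log ‖Complex.cos (ψ / 2)‖ - Real.log ‖Complex.cos (ψ' / 2)‖

/-! ### Solutions -/

namespace PT

/-- number of children of the root -/
def nc : PT → ℕ
  | vx _ _ => 0
  | br t _ => t.nc + 1

/-- the conditions at the edges -/
def hpt (dl : ℂ → ℂ → ℂ) : PT → Prop
  | vx _ _ => True
  | br t c => t.hpt dl ∧ c.hpt dl ∧ HP c.rz t.rz (2 * π * dl c.rz t.rz)

/-- sum over the children of the root -/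
noncomputable def lg (dl : ℂ → ℂ → ℂ) : PT → ℂ
  | vx _ _ => 0
  | br t c => t.lg dl + Lg (2 * π * dl c.rz t.rz) t.rz

/-- the equations at the vertices other than the root -/
def lcr (dl : ℂ → ℂ → ℂ) : PT → Prop
  | vx _ _ => True
  | br t c => t.lcr dl ∧ c.lcr dl ∧
      Complex.I * (c.wt * c.rz + 2 * π) = Lg (2 * π * dl c.rz t.rz) c.rz + c.lg dl

/-- sum of the hinge volumes -/
noncomputable def hs (dl : ℂ → ℂ → ℂ) : PT → ℝ
  | vx _ _ => 0
  | br t c => t.hs dl + c.hs dl + hv c.rz t.rz (2 * π * dl c.rz t.rz)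

/-- the angle structure -/
noncomputable def ang (dl : ℂ → ℂ → ℂ) : PT → AT
  | vx a _ => .vx a
  | br t c => .br (t.ang dl) (c.ang dl) (fla t.rz (2 * π * dl c.rz t.rz))
      (fla c.rz (2 * π * dl c.rz t.rz))

end PT

/-- a solution of the equations gives an angle structure with the volume `hs` -/
def S_ANG : Prop := ∀ (dl : ℂ → ℂ → ℂ) (p : PT), p.hpt dl → p.lcr dl → 1 ≤ p.nc →
  Complex.I * (p.wt * p.rz + 2 * π) = p.lg dl →
  (p.ang dl).shape = p.shape ∧ (p.ang dl).IsAng ∧ (p.ang dl).vol = p.hs dl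

/-- and this angle structure has the maximal volume -/
def S_GMT : Prop := ∀ (dl : ℂ → ℂ → ℂ) (p : PT), p.hpt dl → p.lcr dl → 1 ≤ p.nc →
  Complex.I * (p.wt * p.rz + 2 * π) = p.lg dl →
  ∀ y : AT, y.shape = p.shape → y.IsAng → y.vol ≤ (p.ang dl).vol

/-- the critical configurations are solutions, and the critical value is the volume -/
def S_CCT : Prop := ∀ (ρ τ κ c : ℝ) (s dl : ℂ → ℂ → ℂ), KD ρ τ κ c s dl → ∀ C : ℝ, 0 < C →
  ∀ D : ℕ, ∃ M : ℝ, ∀ p : PT, p.shape.Big M D → 1 ≤ p.nc → p.Crt s C ρ τ →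
    CPt C ρ τ p.wt p.rz → Complex.I * p.wt * p.rz / (2 * π) + Complex.I + p.gs s = 0 →
    p.hpt dl ∧ p.lcr dl ∧ Complex.I * (p.wt * p.rz + 2 * π) = p.lg dl ∧
      2 * π * (Complex.I * p.wt * p.rz ^ 2 / (4 * π) + Complex.I * p.rz + p.vl s).re = p.hs dl

/-- the growth rate is the maximal volume -/
def S_FINT : Prop := ∀ D : ℕ, 1 ≤ D → ∃ M : ℝ, ∀ t : Tr, t.Big M D → 1 ≤ t.nc → ∃ V : ℝ,
  IsGreatest {W : ℝ | ∃ y : AT, y.shape = t ∧ y.IsAng ∧ y.vol = W} V ∧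
  Tendsto (fun N : ℕ => 2 * π * (Real.log ‖JT t N‖ / N)) atTop (𝓝 V)

end Pool.Agent.W719.AR
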